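import Pool.Agent.NPX.Stmts

/-!
# Squad NPX, row TRN: the transfinite construction
-/

set_option autoImplicit false

open Cardinal Set

namespace Pool.Agent.NPX.H52

open Pool.Agent.NPX

theorem flip_prod {K : Type} [CommGroup K] (Z : Set K) (l : List (Z × Bool)) :
    ((l.map (fun p => (p.1, !p.2))).map
      (fun p : Z × Bool => if p.2 then p.1.1 else p.1.1⁻¹)).prod =
        ((l.map (fun p => if p.2 then p.1.1 else p.1.1⁻¹)).prod)⁻¹ := by
  induction l with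
  | nil => simp
  | cons p l ih =>
    rw [List.map_cons, List.map_cons, List.prod_cons, List.map_cons, List.prod_cons, ih,
      mul_inv]
    congr 1
    rcases p with ⟨a, c⟩
    cases c <;> simp

/-- the cardinality of the closure. -/
theorem trn_card {K : Type} [CommGroup K] (Z : Set K) (hZ : #Z < 𝔠) :
    #(Subgroup.closure Z) < 𝔠 := by
  have hsub : ((Subgroup.closure Z : Subgroup K) : Set K)
      ⊆ Set.range (fun l : List (Z × Bool) =>
        (l.map (fun p => if p.2 then p.1.1 else p.1.1⁻¹)).prod) := by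
    intro z hz
    refine Subgroup.closure_induction
      (p := fun z _ => z ∈ Set.range (fun l : List (Z × Bool) =>
        (l.map (fun p => if p.2 then p.1.1 else p.1.1⁻¹)).prod))
      ?_ ?_ ?_ ?_ hz
    · intro x hx
      exact ⟨[(⟨x, hx⟩, true)], by simp⟩
    · exact ⟨[], by simp⟩
    · rintro _ _ _ _ ⟨l1, rfl⟩ ⟨l2, rfl⟩
      exact ⟨l1 ++ l2, by simp⟩
    · rintro _ _ ⟨l, rfl⟩
      refine ⟨l.map (fun p => (p.1, !p.2)), ?_⟩
      exact flip_prod Z l
  have h1 : #((Subgroup.closure Z : Subgroup K) : Set K) ≤ #(List (Z × Bool)) :=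
    (Cardinal.mk_le_mk_of_subset hsub).trans Cardinal.mk_range_le
  have h2 : #(List (Z × Bool)) ≤ max ℵ₀ #(Z × Bool) := Cardinal.mk_list_le_max _
  have h3 : #(Z × Bool) < 𝔠 := by
    rw [Cardinal.mk_prod, Cardinal.lift_id, Cardinal.lift_id]
    refine Cardinal.mul_lt_of_lt aleph0_le_continuum hZ ?_
    rw [Cardinal.mk_bool]
    exact Cardinal.nat_lt_continuum 2
  exact (h1.trans h2).trans_lt (max_lt aleph0_lt_continuum h3)

/-- finite-to-one maps. -/
theorem fib {K : Type} (T : Set ℤ) (f : ℤ → (ℕ → Bool) → K)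
    (hf : ∀ t ∈ T, ∀ y, {σ | f t σ = y}.Finite) (S : Set K) (hS : #S < 𝔠) :
    #({σ : ℕ → Bool | ∃ t ∈ T, f t σ ∈ S} : Set (ℕ → Bool)) < 𝔠 := by
  have hsub : ({σ : ℕ → Bool | ∃ t ∈ T, f t σ ∈ S} : Set (ℕ → Bool)) ⊆
      ⋃ p : T × S, {σ | f p.1.1 σ = p.2.1} := by
    rintro σ ⟨t, ht, h⟩
    exact Set.mem_iUnion.2 ⟨(⟨t, ht⟩, ⟨f t σ, h⟩), rfl⟩
  refine (Cardinal.mk_le_mk_of_subset hsub).trans_lt ?_
  refine Cardinal.mk_iUnion_le_sum_mk.trans_lt ?_
  have h1 : Cardinal.sum (fun p : T × S => #({σ | f p.1.1 σ = p.2.1} : Set (ℕ → Bool))) ≤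
      Cardinal.sum (fun _ : T × S => ℵ₀) :=
    Cardinal.sum_le_sum _ _ fun p => ((hf p.1.1 p.1.2 p.2.1).lt_aleph0).le
  refine h1.trans_lt ?_
  rw [Cardinal.sum_const', Cardinal.mk_prod, Cardinal.lift_id, Cardinal.lift_id]
  refine Cardinal.mul_lt_of_lt aleph0_le_continuum ?_ aleph0_lt_continuum
  refine Cardinal.mul_lt_of_lt aleph0_le_continuum ?_ hS
  exact (Cardinal.mk_le_aleph0 (α := T)).trans_lt aleph0_lt_continuum

/-- one step of the construction. -/
theorem trn_step {K : Type} [CommGroup K] (G0 : Subgroup K) (b : Prop) (P : (ℕ → Bool) → K)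
    (φ : K → K) (h1 : ∀ t : ℤ, (∀ σ, (P σ) ^ t ∈ G0) ∨ ∀ y, {σ | (P σ) ^ t = y}.Finite)
    (h2 : b → ∀ (t : ℤ) y, {σ | φ (P σ) * ((P σ) ^ t)⁻¹ = y}.Finite) (Z Y : Set K)
    (hZ : #Z < 𝔠) (hY : #Y < 𝔠) :
    ∃ σ, (∀ t : ℤ, (¬ ∀ σ', (P σ') ^ t ∈ G0) → ∀ g ∈ Subgroup.closure Z, ∀ y ∈ Y,
        (P σ) ^ t * g ≠ y) ∧ (b → ∀ t : ℤ, φ (P σ) * ((P σ) ^ t)⁻¹ ∉ Subgroup.closure Z) := by
  let G : Set K := ((Subgroup.closure Z : Subgroup K) : Set K)
  have hGc : #G < 𝔠 := trn_card Z hZ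
  let S : Set K := Set.image2 (fun g y => y * g⁻¹) G Y
  have hSc : #S < 𝔠 :=
    Cardinal.mk_image2_le.trans_lt (Cardinal.mul_lt_of_lt aleph0_le_continuum hGc hY)
  let A : Set (ℕ → Bool) := {σ | ∃ t ∈ {t : ℤ | ¬ ∀ σ', (P σ') ^ t ∈ G0}, (P σ) ^ t ∈ S}
  let B : Set (ℕ → Bool) := {σ | ∃ t ∈ {t : ℤ | b}, φ (P σ) * ((P σ) ^ t)⁻¹ ∈ G}
  have hA : #A < 𝔠 := fib _ (fun t σ => (P σ) ^ t)
    (fun t ht => (h1 t).resolve_left ht) S hSc
  have hB : #B < 𝔠 := fib _ (fun t σ => φ (P σ) * ((P σ) ^ t)⁻¹)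
    (fun t ht => h2 ht t) G hGc
  by_contra hcon
  push Not at hcon
  have hcov : (Set.univ : Set (ℕ → Bool)) ⊆ A ∪ B := by
    intro σ _
    by_cases ha : σ ∈ A
    · exact Or.inl ha
    · right
      have hx := hcon σ (fun t ht g hg y hy h => ha ⟨t, by
        intro hall
        obtain ⟨σ', hσ'⟩ := ht
        exact hσ' (hall σ'), ⟨g, hg, y, hy, by rw [← h]; group⟩⟩)
      obtain ⟨hb, t, ht⟩ := hx
      exact ⟨t, hb, ht⟩
  have hle := Cardinal.mk_le_mk_of_subset hcov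
  rw [Cardinal.mk_univ] at hle
  have hc : #(ℕ → Bool) = 𝔠 := by simp
  rw [hc] at hle
  exact absurd (hle.trans (Cardinal.mk_union_le _ _))
    (not_le.2 (Cardinal.add_lt_of_lt aleph0_le_continuum hA hB))

/-- closure of an insertion. -/
theorem closure_ins {K : Type} [CommGroup K] (Z : Set K) (a z : K)
    (hz : z ∈ Subgroup.closure (insert a Z)) :
    ∃ t : ℤ, ∃ g ∈ Subgroup.closure Z, a ^ t * g = z := by
  rw [Set.insert_eq, Subgroup.closure_union, Subgroup.mem_sup] at hz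
  obtain ⟨y, hy, g, hg, h⟩ := hz
  obtain ⟨t, ht⟩ := Subgroup.mem_closure_singleton.1 hy
  exact ⟨t, g, hg, by rw [ht, h]⟩

section order

variable {J : Type} [LinearOrder J] {K : Type} [CommGroup K]

/-- finitely many generators suffice. -/
theorem closure_dir (G0 : Set K) (x : J → K) (S : Set J) (j : J) (hj : j ∈ S) (z : K)
    (hz : z ∈ Subgroup.closure (G0 ∪ x '' S)) :
    ∃ i ∈ S, j ≤ i ∧ z ∈ Subgroup.closure (G0 ∪ x '' Set.Iic i) := by
  refine Subgroup.closure_induction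
    (p := fun z _ => ∃ i ∈ S, j ≤ i ∧ z ∈ Subgroup.closure (G0 ∪ x '' Set.Iic i)) ?_ ?_ ?_ ?_ hz
  · rintro y (hy | ⟨l, hl, rfl⟩)
    · exact ⟨j, hj, le_rfl, Subgroup.subset_closure (Or.inl hy)⟩
    · have hm : max j l ∈ S := by
        rcases max_choice j l with h | h <;> rw [h]
        · exact hj
        · exact hl
      exact ⟨max j l, hm, le_max_left _ _,
        Subgroup.subset_closure (Or.inr ⟨l, le_max_right _ _, rfl⟩)⟩
  · exact ⟨j, hj, le_rfl, Subgroup.one_mem _⟩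
  · rintro u v _ _ ⟨i1, hi1, hj1, h1⟩ ⟨i2, hi2, hj2, h2⟩
    have hm : max i1 i2 ∈ S := by
      rcases max_choice i1 i2 with h | h <;> rw [h]
      · exact hi1
      · exact hi2
    refine ⟨max i1 i2, hm, hj1.trans (le_max_left _ _), Subgroup.mul_mem _ ?_ ?_⟩
    · exact Subgroup.closure_mono (Set.union_subset_union_right _
        (Set.image_mono (Set.Iic_subset_Iic.2 (le_max_left _ _)))) h1
    · exact Subgroup.closure_mono (Set.union_subset_union_right _
        (Set.image_mono (Set.Iic_subset_Iic.2 (le_max_right _ _)))) h2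
  · rintro u _ ⟨i, hi, hj', h⟩
    exact ⟨i, hi, hj', Subgroup.inv_mem _ h⟩

/-- the construction over a well-order with small initial segments. -/
theorem trn_order [WellFoundedLT J] (hJ : ∀ i : J, #(Set.Iio i) < 𝔠) (b : J → Prop)
    (P : J → (ℕ → Bool) → K) (φ : J → K → K) (G0 : Subgroup K) (hG0 : (G0 : Set K).Countable)
    (h1 : ∀ i (t : ℤ), (∀ σ, (P i σ) ^ t ∈ G0) ∨ ∀ y, {σ | (P i σ) ^ t = y}.Finite)
    (h2 : ∀ i, b i → ∀ (t : ℤ) y, {σ | φ i (P i σ) * ((P i σ) ^ t)⁻¹ = y}.Finite) :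
    ∃ G : Subgroup K, G0 ≤ G ∧ ∀ i, ∃ σ, P i σ ∈ G ∧ (b i → φ i (P i σ) ∉ G) := by
  classical
  have hG0c : #(G0 : Set K) < 𝔠 := hG0.le_aleph0.trans_lt aleph0_lt_continuum
  -- the recursion
  have hex : ∃ s : J → (ℕ → Bool), ∀ i,
      (∀ t : ℤ, (¬ ∀ σ', (P i σ') ^ t ∈ G0) →
        ∀ g ∈ Subgroup.closure ((G0 : Set K) ∪ (fun j => P j (s j)) '' Set.Iio i),
        ∀ y ∈ {y | ∃ j < i, b j ∧ φ j (P j (s j)) = y}, (P i (s i)) ^ t * g ≠ y) ∧
      (b i → ∀ t : ℤ, φ i (P i (s i)) * ((P i (s i)) ^ t)⁻¹ ∉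
        Subgroup.closure ((G0 : Set K) ∪ (fun j => P j (s j)) '' Set.Iio i)) := by
    have hstep : ∀ (i : J) (prev : (j : J) → j < i → (ℕ → Bool)), ∃ σ : ℕ → Bool,
        (∀ t : ℤ, (¬ ∀ σ', (P i σ') ^ t ∈ G0) →
          ∀ g ∈ Subgroup.closure ((G0 : Set K) ∪
            Set.range (fun j : Set.Iio i => P j.1 (prev j.1 j.2))),
          ∀ y ∈ {y | ∃ j : Set.Iio i, b j.1 ∧ φ j.1 (P j.1 (prev j.1 j.2)) = y},
            (P i σ) ^ t * g ≠ y) ∧
        (b i → ∀ t : ℤ, φ i (P i σ) * ((P i σ) ^ t)⁻¹ ∉ Subgroup.closure ((G0 : Set K) ∪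
            Set.range (fun j : Set.Iio i => P j.1 (prev j.1 j.2)))) := by
      intro i prev
      refine trn_step G0 (b i) (P i) (φ i) (h1 i) (h2 i) _ _ ?_ ?_
      · refine (Cardinal.mk_union_le _ _).trans_lt
          (Cardinal.add_lt_of_lt aleph0_le_continuum hG0c ?_)
        exact Cardinal.mk_range_le.trans_lt (hJ i)
      · have hsub : {y | ∃ j : Set.Iio i, b j.1 ∧ φ j.1 (P j.1 (prev j.1 j.2)) = y} ⊆
            Set.range (fun j : Set.Iio i => φ j.1 (P j.1 (prev j.1 j.2))) := by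
          rintro y ⟨j, -, hy⟩
          exact ⟨j, hy⟩
        exact (Cardinal.mk_le_mk_of_subset hsub).trans_lt
          (Cardinal.mk_range_le.trans_lt (hJ i))
    choose F hF using hstep
    set s : J → (ℕ → Bool) := (wellFounded_lt (α := J)).fix F with hs
    have hfix : ∀ i, s i = F i (fun j _ => s j) := by
      intro i
      rw [hs]
      exact WellFounded.fix_eq _ F i
    refine ⟨s, ?_⟩
    intro i
    have h := hF i (fun j _ => s j)
    rw [← hfix i] at h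
    have e1 : Set.range (fun j : Set.Iio i => P j.1 (s j.1)) =
        (fun j => P j (s j)) '' Set.Iio i := by
      rw [Set.image_eq_range]
    rw [e1] at h
    refine ⟨fun t ht g hg y hy => h.1 t ht g hg y ?_, h.2⟩
    obtain ⟨j, hj, hb, hy⟩ := hy
    exact ⟨⟨j, hj⟩, hb, hy⟩
  obtain ⟨s, hs⟩ := hex
  set x : J → K := fun j => P j (s j) with hx
  -- the claim
  have hclaim : ∀ i j, j ≤ i → b j →
      φ j (x j) ∉ Subgroup.closure ((G0 : Set K) ∪ x '' Set.Iic i) := by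
    intro i
    induction i using WellFoundedLT.induction with
    | ind i ih =>
      intro j hji hbj hmem
      have hI : (G0 : Set K) ∪ x '' Set.Iic i = insert (x i) ((G0 : Set K) ∪ x '' Set.Iio i) := by
        rw [← Set.Iio_insert, Set.image_insert_eq, Set.union_insert]
      rw [hI] at hmem
      obtain ⟨ha, hb⟩ := hs i
      obtain ⟨t, g, hg, h⟩ := closure_ins _ _ _ hmem
      rcases hji.lt_or_eq with hlt | rfl
      · by_cases hall : ∀ σ', (P i σ') ^ t ∈ G0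
        · have h3 : φ j (x j) ∈ Subgroup.closure ((G0 : Set K) ∪ x '' Set.Iio i) := by
            rw [← h]
            exact Subgroup.mul_mem _ (Subgroup.subset_closure (Or.inl (hall (s i)))) hg
          obtain ⟨i', hi', hj', hz⟩ := closure_dir (G0 : Set K) x (Set.Iio i) j hlt _ h3
          exact ih i' hi' j hj' hbj hz
        · exact ha t hall g hg (φ j (x j)) ⟨j, hlt, hbj, rfl⟩ h
      · refine hb hbj t ?_
        have h3 : φ j (P j (s j)) * ((P j (s j)) ^ t)⁻¹ = g := by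
          have h4 : (P j (s j)) ^ t * g = φ j (P j (s j)) := h
          rw [← h4, mul_comm ((P j (s j)) ^ t) g, mul_inv_cancel_right]
        rw [h3]
        exact hg
  refine ⟨Subgroup.closure ((G0 : Set K) ∪ Set.range x), ?_, ?_⟩
  · intro y hy
    exact Subgroup.subset_closure (Or.inl hy)
  · intro i
    refine ⟨s i, Subgroup.subset_closure (Or.inr ⟨i, rfl⟩), ?_⟩
    intro hbi hmem
    rw [← Set.image_univ] at hmem
    obtain ⟨i', -, hj', hz⟩ := closure_dir (G0 : Set K) x Set.univ i (Set.mem_univ i) _ hmem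
    exact hclaim i' i hj' hbi hz

end order

/-- **Row TRN**. -/
theorem trn : TrnStmt := by
  intro K _ I b P φ G0 hG0 hI h1 h2
  obtain ⟨e⟩ : Nonempty ((#I).ord.ToType ≃ I) := Cardinal.eq.1 (Cardinal.mk_ord_toType _)
  obtain ⟨G, hG, hGi⟩ := trn_order (J := (#I).ord.ToType)
    (fun i => (Cardinal.mk_Iio_ord_toType i).trans_le hI) (fun i => b (e i))
    (fun i => P (e i)) (fun i => φ (e i)) G0 hG0 (fun i => h1 (e i)) (fun i => h2 (e i))
  refine ⟨G, hG, ?_⟩
  intro i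
  have h := hGi (e.symm i)
  simpa using h

end Pool.Agent.NPX.H52
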